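import Pool.Agent.H20.RT.Stmts

/-!
Row CTL of the board rt (MP_a315fd_nt): the number of n with the wanted orbit.
-/

set_option autoImplicit false

namespace Pool.RT

theorem CTL_rec (K L P P' I I' Q Q' : ℕ) (hI : I < 10 ^ L) (hI' : I' < 10 ^ L)
    (hQ : Q < 10 ^ K) (hQ' : Q' < 10 ^ K)
    (h : P * 10 ^ (K + L) + I * 10 ^ K + Q = P' * 10 ^ (K + L) + I' * 10 ^ K + Q') : I = I' := by
  have hK : 0 < 10 ^ K := by positivity
  have key : ∀ p i q : ℕ, i < 10 ^ L → q < 10 ^ K →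
      (p * 10 ^ (K + L) + i * 10 ^ K + q) / 10 ^ K % 10 ^ L = i := by
    intro p i q hi hq
    have e : p * 10 ^ (K + L) + i * 10 ^ K + q = q + 10 ^ K * (p * 10 ^ L + i) := by
      rw [pow_add]; ring
    rw [e, Nat.add_mul_div_left _ _ hK, Nat.div_eq_of_lt hq, zero_add, mul_comm p,
      Nat.mul_add_mod, Nat.mod_eq_of_lt hi]
  have h1 := key P I Q hI hQ
  have h2 := key P' I' Q' hI' hQ'
  rw [h] at h1
  exact h1.symm.trans h2

theorem CTL_inner (hR : RV1Stmt) (h V W V' W' : ℕ) (hV : V < 10 ^ h) (hV' : V' < 10 ^ h)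
    (hW : W < 10 ^ h) (hW' : W' < 10 ^ h) (e : inner h V W = inner h V' W') :
    V = V' ∧ W = W' := by
  unfold inner at e
  have hh : 10 ^ h ≤ 10 ^ (h + 2) := Nat.pow_le_pow_right (by norm_num) (by omega)
  have hp : 0 < 10 ^ (h + 2) := by positivity
  have h1 : V = V' := by
    have a1 : (revk h W * 10 ^ (h + 2) + V) % 10 ^ (h + 2) = V := by
      rw [mul_comm, Nat.mul_add_mod, Nat.mod_eq_of_lt (by omega)]
    have a2 : (revk h W' * 10 ^ (h + 2) + V') % 10 ^ (h + 2) = V' := by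
      rw [mul_comm, Nat.mul_add_mod, Nat.mod_eq_of_lt (by omega)]
    rw [← a1, ← a2, e]
  subst h1
  refine ⟨rfl, ?_⟩
  have h2 : revk h W = revk h W' := by
    have h3 : revk h W * 10 ^ (h + 2) = revk h W' * 10 ^ (h + 2) := by omega
    exact Nat.eq_of_mul_eq_mul_right hp h3
  have h4 := hR.2.1 h W hW
  have h5 := hR.2.1 h W' hW'
  rw [← h4, ← h5, h2]

theorem CTL_thm (hR : RV1Stmt) (hI : INNStmt) (hG : GDSStmt) (hB : BIGStmt) : CTLStmt := by
  intro t0 ht0 h r hr hrr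
  obtain ⟨k, hk⟩ := hB t0 ht0 h r ((h + 30 * r) / 10) hr hrr (by omega)
  have hg := hG h r ((h + 30 * r) / 10) hrr (by omega)
  refine hg.trans (Nat.mul_le_mul_left 5 ?_)
  classical
  have hex : ∀ p : ℕ × ℕ, ∃ n : ℕ, (p.1 < 10 ^ h ∧ p.2 < 10 ^ h ∧
      Good h ((h + 30 * r) / 10) p.1 p.2) →
      ∃ P Q : ℕ, P < 10 ^ (4600 * r) ∧ Q < 10 ^ (4600 * r) ∧ 10 ^ (4600 * r) ≤ 10 * P ∧
        n = P * 10 ^ (4600 * r + (2 * h + 2)) + inner h p.1 p.2 * 10 ^ (4600 * r) + Q ∧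
        T^[k] n = Wd (t0 + 2) 3 0 0 0 0 0 0 0 := by
    intro p
    by_cases hp : (p.1 < 10 ^ h ∧ p.2 < 10 ^ h ∧ Good h ((h + 30 * r) / 10) p.1 p.2)
    · obtain ⟨P, Q, h1, h2, h3, h4⟩ := hk p.1 p.2 hp.1 hp.2.1 hp.2.2
      exact ⟨_, fun _ => ⟨P, Q, h1, h2, h3, rfl, h4⟩⟩
    · exact ⟨0, fun h => absurd h hp⟩
  choose f hf using hex
  refine Set.ncard_le_ncard_of_injOn f ?_ ?_ ?_
  · intro p hp
    obtain ⟨P, Q, h1, h2, h3, h4, h5⟩ := hf p hp
    have hin := (hI h p.1 p.2 hp.1 hp.2.1).1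
    refine ⟨?_, ?_, k, h5⟩
    · have hpos : 0 < 10 ^ (4600 * r) := by positivity
      have hP : 0 < P := by omega
      have hx : 0 < P * 10 ^ (4600 * r + (2 * h + 2)) := by positivity
      omega
    · rw [h4]
      have e1 : 10 ^ (9200 * r + 2 * h + 2) = 10 ^ (4600 * r) * 10 ^ (4600 * r + (2 * h + 2)) := by
        rw [← pow_add, show 4600 * r + (4600 * r + (2 * h + 2)) = 9200 * r + 2 * h + 2 by omega]
      have e2 : 10 ^ (4600 * r + (2 * h + 2)) = 10 ^ (4600 * r) * 10 ^ (2 * h + 2) := by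
        rw [← pow_add]
      have e3 : inner h p.1 p.2 * 10 ^ (4600 * r) + Q < 10 ^ (4600 * r + (2 * h + 2)) := by
        rw [e2]
        calc inner h p.1 p.2 * 10 ^ (4600 * r) + Q
            < inner h p.1 p.2 * 10 ^ (4600 * r) + 10 ^ (4600 * r) := by omega
          _ = 10 ^ (4600 * r) * (inner h p.1 p.2 + 1) := by ring
          _ ≤ 10 ^ (4600 * r) * 10 ^ (2 * h + 2) := Nat.mul_le_mul_left _ hin
      rw [e1]
      calc P * 10 ^ (4600 * r + (2 * h + 2)) + inner h p.1 p.2 * 10 ^ (4600 * r) + Q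
          < P * 10 ^ (4600 * r + (2 * h + 2)) + 10 ^ (4600 * r + (2 * h + 2)) := by omega
        _ = (P + 1) * 10 ^ (4600 * r + (2 * h + 2)) := by ring
        _ ≤ 10 ^ (4600 * r) * 10 ^ (4600 * r + (2 * h + 2)) := Nat.mul_le_mul_right _ h1
  · intro p hp q hq hpq
    obtain ⟨P, Q, h1, h2, h3, h4, h5⟩ := hf p hp
    obtain ⟨P', Q', h1', h2', h3', h4', h5'⟩ := hf q hq
    have hin := (hI h p.1 p.2 hp.1 hp.2.1).1
    have hin' := (hI h q.1 q.2 hq.1 hq.2.1).1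
    rw [h4, h4'] at hpq
    have hII := CTL_rec (4600 * r) (2 * h + 2) P P' _ _ Q Q' hin hin' h2 h2' hpq
    obtain ⟨a, b⟩ := CTL_inner hR h p.1 p.2 q.1 q.2 hp.1 hq.1 hp.2.1 hq.2.1 hII
    exact Prod.ext a b
  · exact (Set.finite_Iio (10 ^ (9200 * r + 2 * h + 2))).subset (fun n hn => hn.2.1)

end Pool.RT
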